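import Pool.Agent.Run7.h260.LP.Pow

/-!
# The minimal model program for klt pairs which are dominated by complete intersections

Let `V` be a smooth complete intersection of dimension `n ≥ 1` of hypersurfaces of the degrees `d i ≤ D`
in `ℙ^(M + 1)` (for instance a smooth hypersurface) with `K_V = O(m)`. Let `V' ⇢ V` be a generically
finite dominant rational map of any degree, and let `V' ⇢ X` be a dominant rational map of degree `r`
to a normal projective variety `X`. Both maps are arbitrary: they are not related to each other, they
need not be quotients by groups, and their ramification is arbitrary. Let `l ≥ 1`, and let `Δ` be an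
effective `ℚ`-divisor on `X` such that

`coefficient of P in Δ ≥ 1 - 1 / min (e, l)`

for all prime divisors `P` of `X` and the ramification indices `e` over `P`. For instance, `Δ` is the
branch divisor with the coefficient `1 - 1 / l`; for `l = 2` it is one half of the branch divisor. If
`l = 1` then `Δ` is any effective divisor.

**Theorem.** Suppose that `l m ≥ 7 N + 4`, `(M + 1) N < l m + M + 2`, `D + N ≤ l m + 2` and `N ≤ m + 1`.

* If `k r < (N + 1) (l m + 2 - N)` then `⌊l (K_X + Δ)⌋` has `k` linearly independent sections.
* If `2 r < (N + 1) (l m + 2 - N)` then `K_X + Δ` is big: its Kodaira dimension and its numerical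
  dimension are equal to `n`.

So Q1 has a positive answer for all klt pairs `(X, Δ)`, `X` `ℚ`-factorial, of this kind with
`2 r < (N + 1) (l m + 2 - N)`: as `K_X + Δ` is big, the minimal model program with scaling of an ample
divisor is finite and ends with a `ℚ`-factorial klt pair `(X', Δ')`, `K_X' + Δ'` nef (Birkar, Cascini,
Hacon, McKernan; this step is not in Lean), which is the first outcome of Q1. For `l = 1` this is a
statement on all klt pairs `(X, Δ)` on the given variety `X`. With `N = m + 1` (if `l` is large in
comparison with `M` and `D`) the bound is `2 r < (m + 2) (l m + 1 - m)`, quadratic in the degree; the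
indices `e` may be as large as `r`.

The theorem is helper260's, who handed it in as `MP_e23cd6_ag.FractionalBoundaries` for the abundance
conjecture for klt pairs (nef `K_X + Δ`); this file is a port to the question on the minimal model
program (arbitrary `K_X + Δ`).

## Proof

The traces on `X` of the pull-backs of the `l`-canonical forms `P(x) ω₀ ^ l`, `deg P = l m`, on `V` are
sections of `l (K_X + Δ)`. If there are few of them, then there is a relation between the values of all
forms of degree `l m` at less than `(N + 1) (l m + 2 - N)` generic points of `V`. By the theorems on plane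
curves and the Cayley-Bacharach theorem there is a curve of degree at most `N ≤ m + 1` which contains
many of these points and is contained in `V`; hence `V` is covered by such curves, which is impossible
as the canonical forms `P(x) ω₀`, `deg P = m`, vanish on them. See `Pool/Agent/Run7/h260/LP/*`,
`Pool/Agent/Run7/h260/LQ/Ind.lean` and the starting project `N162/GP`, where `l = 1`.
-/

set_option autoImplicit false
set_option linter.overlappingInstances false

open FF MvPolynomial Pool.Agent.W602.GT Pool.Agent.Y172

namespace Pool.Agent.Results.MP_a27c81_ag.FractionalBoundaries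

/-- `V` is the smooth complete intersection, of dimension `n`, of the hypersurfaces `F i = 0` of degree
`d i` in projective `(M + 1)`-space (at every point of `V` the gradients of the `F i` are linearly
independent), `E` is its function field and `x` its generic point, `x 0 = 1`: a form vanishes at `x` if
and only if it vanishes on `V`, that is, if it is in the radical of the ideal generated by the `F i`. -/
structure IsSmoothCI {M c : ℕ} {E : Type} [Field E] [Algebra ℂ E] (n : ℕ)
    (F : Fin c → MvPolynomial (Fin (M + 2)) ℂ) (d : Fin c → ℕ) (x : Fin (M + 2) → E) : Prop where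
  homF : ∀ i, (F i).IsHomogeneous (d i)
  smooth : ∀ z : Fin (M + 2) → ℂ, z ≠ 0 → (∀ i, eval z (F i) = 0) →
    LinearIndependent ℂ fun (i : Fin c) (l : Fin (M + 2)) => eval z (pderiv l (F i))
  one : x 0 = 1
  generic : ∀ (e : ℕ) (P : MvPolynomial (Fin (M + 2)) ℂ), P.IsHomogeneous e →
    (aeval x P = 0 ↔ P ∈ (Ideal.span (Set.range F)).radical)
  gen : IntermediateField.adjoin ℂ (Set.range x) = ⊤
  dim : Algebra.trdeg ℂ E = n
  codim : n + c = M + 1

/-- **Klt pairs with fractional boundaries.** Let `V` be a smooth complete intersection of dimension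
`n ≥ 1` with `K_V = O(m)`, with the function field `E`. Let `K` be a finite extension of `E` (the function
field of `V'`), and a finite extension of the function field `L` of the normal projective variety `X`
with generic point `y`. Let `Δ` be an effective `ℚ`-divisor on `X` such that `1 - 1 / min (e, l) ≤ Δ P`
for all prime divisors `P` of `X` and all places of `K` over `P`, of ramification index `e`. Let
`l m ≥ 7 N + 4`, `(M + 1) N < l m + M + 2`, `D + N ≤ l m + 2`, `N ≤ m + 1`. If
`k [K : L] < (N + 1) (l m + 2 - N)` then there are `k` linearly independent sections of `l (K_X + Δ)`. If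
`2 [K : L] < (N + 1) (l m + 2 - N)` then `K_X + Δ` has the Kodaira dimension and the numerical
dimension `n`. -/
theorem result {n M c D m N k l : ℕ} (hn : 1 ≤ n) {E : Type} [Field E] [Algebra ℂ E]
    {F : Fin c → MvPolynomial (Fin (M + 2)) ℂ} {d : Fin c → ℕ} {x : Fin (M + 2) → E}
    (hV : IsSmoothCI n F d x) (hd : ∀ i, d i ≤ D) (hm : m + M + 2 = ∑ i, d i) (hl : 1 ≤ l)
    (h1 : 7 * N + 4 ≤ l * m) (h2 : (M + 1) * N < l * m + M + 2) (h3 : D + N ≤ l * m + 2)
    (h4 : N ≤ m + 1)
    (K : Type) [Field K] [Algebra ℂ K] [Algebra E K] [IsScalarTower ℂ E K] [FiniteDimensional E K]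
    (L : Type) [Field L] [Algebra ℂ L] [Algebra L K] [IsScalarTower ℂ L K] [FiniteDimensional L K]
    {N₀ : ℕ} {y : Fin (N₀ + 1) → L} (hy : NormalModel y) {Δ : Place ℂ L → ℚ} (hΔ : Effective y Δ)
    (hram : ∀ P, IsPrimeDivisor y P → ∀ (Q : Place ℂ K) (e : ℕ), Over Q P e →
      1 - 1 / ((min e l : ℕ) : ℚ) ≤ Δ P) :
    (k * Module.finrank L K < (N + 1) * (l * m + 2 - N) →
      ∃ η : Fin k → ((Fin n → Derivation ℂ L L) → L), LinearIndependent ℂ η ∧
        ∀ j, IsSection y n l (l • Δ) (η j)) ∧
    (2 * Module.finrank L K < (N + 1) * (l * m + 2 - N) →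
      kodairaDim y n Δ = (n : WithBot ℕ) ∧
        ∀ A, Effective y A → Integral y A → numericalDim y n Δ A = (n : EReal)) := by
  haveI : Algebra.EssFiniteType ℂ E := Pool.Agent.N162.GP.ess_of_gen hV.gen
  have hc : c ≠ 0 := by
    rintro rfl
    simp at hm
  have hD : 1 ≤ D := by
    by_contra hD
    have h1 : ∑ i, d i = 0 := Finset.sum_eq_zero fun i _ => by
      have := hd i
      omega
    omega
  have hM : 1 ≤ M := by
    have := hV.codim
    omega
  have hCI : Pool.Agent.N162.GP.SmoothCI F d x := ⟨hV.homF, hV.smooth, hV.one, hV.generic, hV.gen⟩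
  have hcut := Pool.Agent.N162.GP.fCIC M c D E F d x hCI hd hD
  obtain ⟨ω₀, hadj⟩ := Pool.Agent.N162.GP.fCIA M n c m E F d x hCI hn hV.dim hV.codim hm
  obtain ⟨D₁, hD₁⟩ := hadj.ne
  exact Pool.Agent.Run7.h260.LP.frac_main (BE := fun _ => False) hn hV.dim hl hy hΔ
    ⟨hram, fun _ _ _ _ _ _ _ _ h => h.elim⟩
    (b := fun P : {P : MvPolynomial (Fin (M + 2)) ℂ // P.IsHomogeneous (l * m)} => aeval x P.1)
    (ω₀ := fun D => ω₀ D ^ l) (fun A D => by
      change ω₀ _ ^ l = _
      rw [hadj.pl, pow_one, mul_pow]) ⟨D₁, pow_ne_zero _ hD₁⟩
    (fun P => Pool.Agent.Run7.h260.LP.pow_sec hV.one hadj.pl (fun P hP =>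
      ⟨(hadj.reg P hP).1, fun Q hQ D hDl => (hadj.reg P hP).2 Q hQ D fun i =>
        Pool.Agent.TH466.QG.derReg_of_log (hDl i), fun Q hQ _ => (hadj.reg P hP).2 Q hQ⟩) l P.1 P.2)
    (fun Ω _ _ _ S lam hS hlam hSc hrel =>
      Pool.Agent.Run7.h260.LQ.linx M n (l * m) m N D E Ω x ω₀ hM h1 h2 h3 h4 hV.one hV.gen hV.dim
        hcut hadj S lam hS hlam hSc fun P hP => hrel ⟨P, hP⟩)

end Pool.Agent.Results.MP_a27c81_ag.FractionalBoundaries
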