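import Pool.Agent.Q57.CX.Top
import Pool.Agent.Run7.h277.MM.Mix

/-!
# Termination of all log minimal model programs for the toroidal models of covers of products of
# projective spaces

Let `F i` be a form of degree `d i` in `n i + 1` variables whose zero set in the projective
`n i`-space is a smooth hypersurface, and let `H i` be the cyclic hypersurface `w ^ (d i) = F i` in
the projective `(n i + 1)`-space. Let `K` be the function field of a quotient
`Y = (H 1 × ... × H r) / G`, where `G` is any group of diagonal automorphisms
`w i ↦ ζ i * w i`, `ζ i ^ (d i) = 1`. Equivalently, `K` is generated by the affine coordinates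
`x i j / x i 0` of the product of the projective `n i`-spaces and by roots `z j`,
`z j ^ (m j) = ∏ i, (F i (x i) / x i 0 ^ (d i)) ^ (a j i)`, where `m j` divides `a j i * d i`: the
abelian covers of the product of the projective spaces which are branched along the hypersurfaces
`F i = 0` of the factors. There is no condition on the dimensions and the degrees, so `Y` can be
rationally connected, Calabi-Yau, of general type, or of any intermediate Kodaira dimension.

A prime divisor `P` over `Y` (a divisorial place of `K`) has the vector `multiplicities F d x P` of the
multiplicities `v i` of the hypersurfaces along `P`. The vectors `v ≠ 0` of nonnegative integers with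
`m j ∣ ∑ i, a j i * v i` for all `j` are the `Admissible` ones: the nonzero points, in the positive
orthant, of the lattice of the toroidal variety `Y`.

**The varieties.** The toroidal modifications `X` of `Y` are given by the subdivisions (fans) of the
positive orthant into rational polyhedral cones; `fan` is the set of the maximal cones, each given by
a finite set of admissible generators which span the space.

**The divisors.** `D 1, ..., D p` are toroidal `ℚ`-Cartier divisors on `X`: sums of multiples `β i t`
of the hyperplane classes of the factors and of the prime divisors of the boundary of `X`. The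
coefficient of the pullback of `D i` at a prime divisor `P` over `X` is
`coefficient F d x (c i) (β i) P = c i v + ∑ t, β i t * h t`, where `v` is the vector of the
multiplicities, `h t` is minus the minimal order at `P` of the homogeneous coordinates of the `t`-th
factor, and `- c i v = ∑ k, u σ i k * v k` on the cone `σ`. Take divisors `D i` which generate all
toroidal `ℚ`-Cartier divisors on a `ℚ`-factorial `X`. If all `n i ≥ 3` then every divisor on `X` is,
up to `ℚ`-linear equivalence, toroidal, and the numerical classes of the `ℝ`-divisors on `X` are the
real combinations of the classes of the `D i` (Lefschetz; this remark is not used and not proved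
here).

**The models.** Let `E 1, ..., E q` be integral combinations of the `D i`; they are the multiples of
the prime divisors of the boundary of `X`. (Only prime divisors `E` with one section in all multiples
can be contracted by a birational map whose inverse contracts no divisor; if all `n i ≥ 3` these are
prime divisors of the boundary. This remark is not used and not proved here.) A `ℚ`-factorial
projective variety `X'` with a birational map `X --> X'` whose inverse contracts no divisor, and which
contracts the `E j` with `j` in the set `J`, is described by the coefficients `δ' i P` of the pullbacks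
of the pushforwards of the `D i` to `X'`, at all prime divisors `P` over `X`. The sections on `X'` of the
pushforward of a divisor `D` are the sections on `X` of `D + m * ∑ j ∈ J, E j` for large `m`, and the
rational combinations near some combination are semiample on `X'`. This is `IsModel`.

**The theorem.** There is a number `B` such that among any `B + 1` models, with any sets `J`, there are
two with the same set `J` and the same coefficients (so `X` has at most `B` models `X'`), and such that
every sequence `X 0 --> X 1 --> ...` of models in which the coefficients of the pullbacks of the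
pushforwards of a real combination `∑ i, w i * D i` do not increase, and some coefficient becomes smaller
in each step, has less than `B` steps.

This holds for the flips and for the divisorial contractions of the `K_X + Δ` minimal model program
(negativity lemma), where `K_X + Δ` has the class `∑ i, w i * D i`; the boundary `Δ` can be arbitrary, with
real coefficients, also not toroidal. So if all `n i ≥ 3` and `X` is `ℚ`-factorial, every log minimal
model program for every log canonical pair `(X, Δ)` is finite, in every order of the flips and the
divisorial contractions, and the number of its steps is bounded by a number `B` which depends only on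
`X`. Since contractions and flips exist for log canonical pairs, it ends with one of the two outcomes
of the question. The starting file `MP_89a3f8_ag.TerminationOfFlips` treats, from the same library,
the sequences of flips only (the case where all `J` are empty); the starting file
`MP_a06248_ag.FlipsWithoutFactoriality` treats rational classes `K_X + Δ` and models which are described by
the germ of one segment only, which gives no finiteness of the set of all models.
-/

set_option autoImplicit false

open FF MvPolynomial Pool.Agent.W602.GT

namespace Pool.Agent.Results.MP_a27c81_ag.MixedSequences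

/-- The form `F` has no singular zeros: its partial derivatives have no common zero but `0`. -/
def Smooth {n : ℕ} (F : MvPolynomial (Fin (n + 1)) ℂ) : Prop :=
  ∀ x : Fin (n + 1) → ℂ, x ≠ 0 → ∃ l, eval x (pderiv l F) ≠ 0

section fans

variable {r R : ℕ}

/-- The multiplicities which satisfy the divisibility conditions. -/
def Admissible (m : Fin R → ℕ) (a : Fin R → Fin r → ℕ) (v : Fin r → ℕ) : Prop :=
  v ≠ 0 ∧ ∀ j, m j ∣ ∑ i, a j i * v i

/-- The vector `v` is in the cone which is generated by the vectors in `σ`. -/
def InCone (σ : Finset (Fin r → ℕ)) (v : Fin r → ℕ) : Prop :=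
  ∃ w : (Fin r → ℕ) → ℚ, (∀ s, 0 ≤ w s) ∧ ∀ k, (v k : ℚ) = ∑ s ∈ σ, w s * s k

/-- `fan` is a finite set of cones, each generated by a finite set of admissible vectors which span
the whole space, which cover all admissible vectors. -/
structure IsFan (m : Fin R → ℕ) (a : Fin R → Fin r → ℕ) (fan : Finset (Finset (Fin r → ℕ))) :
    Prop where
  adm : ∀ σ ∈ fan, ∀ s ∈ σ, Admissible m a s
  full : ∀ σ ∈ fan, ∀ f : Fin r → ℚ, ∃ q : (Fin r → ℕ) → ℚ, ∀ k, f k = ∑ s ∈ σ, q s * s k
  cover : ∀ v, Admissible m a v → ∃ σ ∈ fan, InCone σ v

end fans

section places

variable {r : ℕ} {n : Fin r → ℕ} {K : Type} [Field K] [Algebra ℂ K]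

/-- The affine coordinates of the product of the projective spaces. -/
noncomputable def affine (x : ∀ i, Fin (n i + 1) → K) (b : (i : Fin r) × Fin (n i)) : K :=
  x b.1 b.2.succ / x b.1 0

/-- The minimal order at `P` of the homogeneous coordinates `y`. -/
noncomputable def minimalOrder {n : ℕ} (y : Fin (n + 1) → K) (P : Place ℂ K) : ℤ :=
  Finset.univ.inf' Finset.univ_nonempty fun j => P.ord (y j)

/-- The multiplicities of the hypersurfaces `F i = 0` along the prime divisor `P`; the `x i j` are the
homogeneous coordinates of the `i`-th factor, which are divided by one of minimal order at `P`. -/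
noncomputable def multiplicities (F : ∀ i, MvPolynomial (Fin (n i + 1)) ℂ) (d : Fin r → ℕ)
    (x : ∀ i, Fin (n i + 1) → K) (P : Place ℂ K) (i : Fin r) : ℕ :=
  (P.ord (aeval (x i) (F i)) - d i * minimalOrder (x i) P).toNat

/-- The coefficient at the prime divisor `P` of the divisor with the function `c` of the
multiplicities and the degrees `β t`: it is `c v` plus `β t` times the coefficient at `P` of the
hyperplane class of the `t`-th factor, which is represented by the divisor with the coefficients
`- minimalOrder (x t) P` (its sections are the linear forms in the `x t j`). -/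
noncomputable def coefficient (F : ∀ i, MvPolynomial (Fin (n i + 1)) ℂ) (d : Fin r → ℕ)
    (x : ∀ i, Fin (n i + 1) → K) (c : (Fin r → ℕ) → ℚ) (β : Fin r → ℤ) (P : Place ℂ K) : ℚ :=
  c (multiplicities F d x P) - ∑ t, (β t : ℚ) * minimalOrder (x t) P

end places

section divisors

variable {K : Type} [Field K] [Algebra ℂ K] {p q : ℕ} (N : ℕ) (δ : Fin p → Place ℂ K → ℚ)

/-- `f` is a section of `∑ i, μ i * D i`: its order at every prime divisor `P` over `X` (every
divisorial place `P` of `K`) is at least minus the coefficient `∑ i, μ i * δ i P` of the pullback of
`∑ i, μ i * D i`, or `f = 0`. -/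
def IsSection (μ : Fin p → ℤ) (f : K) : Prop :=
  ∀ P : Place ℂ K, Divisorial N P → f = 0 ∨ - ∑ i, (μ i : ℚ) * δ i P ≤ P.ord f

/-- The linear system of the integral combination `∑ i, μ i * D i` has no base points: it has for
every prime divisor `P` over `X` a section which does not vanish at `P`, that is, its order at `P` is
the minimal one. -/
def BasePointFree (μ : Fin p → ℤ) : Prop :=
  ∀ P : Place ℂ K, Divisorial N P → ∃ f : K, f ≠ 0 ∧ IsSection N δ μ f ∧
    (P.ord f : ℚ) ≤ - ∑ i, (μ i : ℚ) * δ i P

/-- A positive multiple of the rational combination `∑ i, μ i * D i` is an integral combination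
without base points. -/
def Semiample (μ : Fin p → ℚ) : Prop :=
  ∃ k : ℕ, 1 ≤ k ∧ ∃ ν : Fin p → ℤ, (∀ i, (k : ℚ) * μ i = ν i) ∧ BasePointFree N δ ν

/-- The coefficients `δ'` are those of the pushforwards of the `D i` to a model `X'` of `X`, on which
the prime divisors `E j`, `j ∈ J`, are contracted, and on which the pushforwards are `ℚ`-Cartier and
some rational combination of them is ample: the sections on `X'` of an integral combination are the
sections on `X` of its sums with the multiples of `∑ j ∈ J, E j`, and the rational combinations near
some combination `lam` are semiample on `X'`. -/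
def IsModel (E : Fin q → Fin p → ℤ) (J : Finset (Fin q)) (δ' : Fin p → Place ℂ K → ℚ) : Prop :=
  (∀ (μ : Fin p → ℤ) (f : K),
      IsSection N δ' μ f ↔ ∃ m : ℕ, IsSection N δ (μ + m • ∑ j ∈ J, E j) f) ∧
    ∃ (lam : Fin p → ℚ) (ε : ℚ), 0 < ε ∧
      ∀ μ : Fin p → ℚ, (∀ i, |μ i - lam i| ≤ ε) → Semiample N δ' μ

/-- The coefficients of the real combination `∑ i, w i * D i` do not increase, and some coefficient
becomes smaller: this holds if the model with the coefficients `δ''` is obtained from the one with the
coefficients `δ'` by a flip or a divisorial contraction for this combination (negativity lemma). -/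
def IsStep (w : Fin p → ℝ) (δ' δ'' : Fin p → Place ℂ K → ℚ) : Prop :=
  (∀ P : Place ℂ K, Divisorial N P →
    ∑ i, w i * (δ'' i P : ℝ) ≤ ∑ i, w i * (δ' i P : ℝ)) ∧
  ∃ P : Place ℂ K, Divisorial N P ∧
    ∑ i, w i * (δ'' i P : ℝ) < ∑ i, w i * (δ' i P : ℝ)

end divisors

/-- **Termination of all minimal model programs.** Let `K` be the function field of an abelian cover
`Y` of the product of the projective `n i`-spaces which is branched along smooth hypersurfaces `F i = 0`
of the factors, `X` the toroidal modification of `Y` which is given by `fan`, `D i`, `i < p`, toroidal
`ℚ`-Cartier divisors on `X` with the degrees `β i t` and the coefficients `c i`, and `E j`, `j < q`,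
integral combinations of the `D i`. There is a number `B` such that
(1) among any `B + 1` models of `X`, with any sets `J` of contracted divisors, there are two with the
same set `J` and the same coefficients of the pushforwards of the `D i` at all prime divisors over `X`;
(2) every sequence of flips and divisorial contractions, in any order, for every real combination of
the `D i` has less than `B` steps. -/
theorem result (r N R p q : ℕ) (n d : Fin r → ℕ) (hr : 1 ≤ r) (hn : ∀ i, 1 ≤ n i)
    (hd : ∀ i, 1 ≤ d i) (hN : N = ∑ i, n i)
    (F : ∀ i, MvPolynomial (Fin (n i + 1)) ℂ) (hF : ∀ i, (F i).IsHomogeneous (d i))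
    (hs : ∀ i, Smooth (F i)) (m : Fin R → ℕ) (hm : ∀ j, 1 ≤ m j) (a : Fin R → Fin r → ℕ)
    (hdiv : ∀ j i, m j ∣ a j i * d i)
    (K : Type) [Field K] [Algebra ℂ K] (x : ∀ i, Fin (n i + 1) → K) (hx0 : ∀ i, x i 0 ≠ 0)
    (hbas : IsTranscendenceBasis ℂ (affine x)) (z : Fin R → K)
    (hz : ∀ j, z j ^ m j = ∏ i, (aeval (x i) (F i) / x i 0 ^ d i) ^ a j i)
    (hgen : IntermediateField.adjoin ℂ (Set.range (affine x) ∪ Set.range z) = ⊤)
    (fan : Finset (Finset (Fin r → ℕ))) (hfan : IsFan m a fan)
    (c : Fin p → (Fin r → ℕ) → ℚ) (hc0 : ∀ i, c i 0 = 0) (β : Fin p → Fin r → ℤ)
    (u : Finset (Fin r → ℕ) → Fin p → Fin r → ℚ)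
    (hlin : ∀ σ ∈ fan, ∀ i v, Admissible m a v → InCone σ v → - c i v = ∑ k, u σ i k * v k)
    (δ : Fin p → Place ℂ K → ℚ) (hδ : ∀ i P, δ i P = coefficient F d x (c i) (β i) P)
    (E : Fin q → Fin p → ℤ) :
    ∃ B : ℕ,
      (∀ (J : Fin (B + 1) → Finset (Fin q)) (δs : Fin (B + 1) → Fin p → Place ℂ K → ℚ),
        (∀ j, IsModel N δ E (J j) (δs j)) →
        ∃ j j' : Fin (B + 1), j < j' ∧ J j = J j' ∧ ∀ P : Place ℂ K, Divisorial N P →
          ∀ i, δs j i P = δs j' i P) ∧
      ∀ (w : Fin p → ℝ) (L : ℕ) (J : ℕ → Finset (Fin q)) (δs : ℕ → Fin p → Place ℂ K → ℚ),
        (∀ j ≤ L, IsModel N δ E (J j) (δs j)) →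
        (∀ j < L, IsStep N w (δs j) (δs (j + 1))) → L < B :=
  Pool.Agent.Run7.h277.MM.term_ctr
    (Pool.Agent.Q57.CX.main_cox (N := N) hr hn hN hd hF hs hx0 hbas hm hdiv
      hz hgen (S := fan) ⟨hfan.adm, hfan.full, hfan.cover⟩ hc0 (u := u) hlin (β := β) hδ) E

end Pool.Agent.Results.MP_a27c81_ag.MixedSequences
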