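import Pool.Agent.Run7.h562.ND.Pair

/-!
# Log minimal models of klt pairs on images of products with an arbitrary factor

Let `V = X × Y`, where `X` and `Y` are smooth projective varieties over `ℂ` of dimensions `d` and `n`.
There is no condition on `Y`: it may be uniruled, or of Kodaira dimension `-∞`. Let `V ⇢ W` be a
dominant rational map of finite degree to a variety `W`. It need not be related to the product
structure, and it need not be the quotient by a group. Let `Δ` be a boundary on `W` which is at most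
the branch divisor: `0 ≤ Δ`, and the log pull-back of `Δ` has no positive part on `V`
(`e δ ≤ e - 1` if a prime divisor over `V` has ramification index `e` over the prime divisor over `W`
with coefficient `δ`; if `V' → W` is a morphism from a smooth model `V'` of `V`, this means that
`K_V' - π^* (K_W + Δ)` is effective). Then `(W, Δ)` is klt. For instance `Δ = ∑ (1 - 1/m_i) D_i`
where `m_i` divides the ramification indices over `D_i`, or `Δ = 0`.

Let `H_0, ..., H_{k-1}` be linear systems on `X`, let `W_i` be the image of `V` in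
`W × ℙ^(m_0) × ... × ℙ^(m_{i-1})`, and let `d_i` be the degree of `W_{i+1} → W_i`. Suppose that
`V ⇢ W_k` is birational (general points of `V` with the same image in `W` are separated by the
systems on `X`), and that `N K_X - ∑ M_i H_i` is effective for some `N ≥ 1` and
`M_i > 2 N (d_i - 1)`. Then

* `K_W + Δ` is pseudo-effective if and only if `K_Y` is; `κ(K_W + Δ) = -∞` if and only if
  `κ(Y) = -∞`;
* `κ(K_W + Δ) ≤ d + κ(Y)` and `ν(K_W + Δ) ≤ d + ν(Y)`;
* if the systems contain `s` algebraically independent functions then `κ(K_W + Δ) ≥ s + κ(Y)` and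
  `ν(K_W + Δ) ≥ s + ν(Y)`;
* so, if the systems separate the general points of `X` generically finitely (`s = d`), then
  `κ(K_W + Δ) = d + κ(Y)` and `ν(K_W + Δ) = d + ν(Y)`, and `κ = ν ≥ 0` for `(W, Δ)` if and only if
  `κ = ν ≥ 0` for `Y`.

For the minimal model conjecture: a klt pair with pseudo-effective log canonical divisor has a good
minimal model if and only if `κ = ν` (Gongyo, Lehmann), and then the minimal model programme with
scaling ends with it (Birkar, Hacon, Xu). So `(W, Δ)` has a good minimal model if and only if `Y` has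
one. If `dim Y ≤ 3`, then the programme for `(W, Δ)` (in every dimension) ends with a good minimal
model or with a Mori fibre space (Birkar, Cascini, Hacon, McKernan), so the conjecture holds for
`(W, Δ)`. These last steps are not part of the Lean proof.

Method. Upper bounds: the sections of `m (K_W + Δ) + A` pull back to `V`, and a section of `m K_V + A`
is a combination, over the function field of `X`, of sections of `m K_Y + A'`, with `A'` independent
of `m` (a Künneth theorem for adjoint divisors, `ND.ext`). Lower bounds: exterior products `η^s ∧ τ`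
of a positive multicanonical form on `X` with sections `τ` of `m K_Y + A`, multiplied by monomials in
the systems, and their norms down to `W` (`Run7.h72.tower_ind`, the norm principle in towers of
helper72).
-/

set_option autoImplicit false
set_option linter.overlappingInstances false
set_option linter.unusedSectionVars false
set_option linter.unusedVariables false

open FF IntermediateField Module

namespace Pool.Agent.Results.MP_a27c81_ag.PairsOnImagesOfProducts

open Pool.Agent.W602.GT (Divisorial RegAt IsPluri)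
open Pool.Agent.W619.TW (NumLe NumNeg KodGe HasIndep)
open Pool.Agent.Y174 (PairSec LiesOn)
open Run7.h72 (mlt Lv)

/-- `ν (K_X) = -∞` for the function field `K` of `X` of dimension `d`: for each divisor `A`, no
large multiple `m K_X + A` has a section (`K_X` is not pseudo-effective). -/
def NuNeg (K : Type) [Field K] [Algebra ℂ K] (d : ℕ) : Prop := NumNeg ℂ K d fun _ => False

/-- `ν (K_X) ≤ h`: for each divisor `A` there is `C` with `h⁰ (m K_X + A) ≤ C m ^ h` for all
`m ≥ 1`. -/
def NuLe (K : Type) [Field K] [Algebra ℂ K] (d h : ℕ) : Prop := NumLe ℂ K d (fun _ => False) h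

/-- `κ (X) ≥ a`: there is `m ≥ 1` with `h⁰ (j m K_X) ≥ j ^ a` for all `j ≥ 1`. -/
def KapGe (K : Type) [Field K] [Algebra ℂ K] (d a : ℕ) : Prop := KodGe ℂ K d (fun _ => False) a

/-- `κ (X) = ν (X) ≥ 0`. -/
def Abundant (K : Type) [Field K] [Algebra ℂ K] (d : ℕ) : Prop := ∃ h, KapGe K d h ∧ NuLe K d h

/-- `ν (K_W + Δ) = -∞` (`K_W + Δ` is not pseudo-effective): for each divisor `A`, no large multiple
`m (K_W + Δ) + A` has a section. The divisor `Δ` is given by its coefficients `δ P` along all prime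
divisors `P` over `W`: sections of `m (K_W + Δ) + A` are `m`-canonical forms whose value on vector
fields which are regular along `P` has order at least `-m δ P + ord_P A` (`PairSec`). -/
def PNuNeg (L : Type) [Field L] [Algebra ℂ L] (d : ℕ) (δ : Place ℂ L → ℝ) : Prop :=
  ∀ S : Finset L, ∃ m0 : ℕ, ∀ m, m0 ≤ m → ¬ HasIndep ℂ L d 1 (PairSec ℂ L d δ S m 1)

/-- `ν (K_W + Δ) ≤ h`: for each divisor `A` there is `C` with
`h⁰ (m (K_W + Δ) + A) ≤ C m ^ h` for all `m ≥ 1`. -/
def PNuLe (L : Type) [Field L] [Algebra ℂ L] (d : ℕ) (δ : Place ℂ L → ℝ) (h : ℕ) : Prop :=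
  ∀ S : Finset L, ∃ C : ℕ, ∀ m N : ℕ, 1 ≤ m → HasIndep ℂ L d N (PairSec ℂ L d δ S m 1) →
    N ≤ C * m ^ h

/-- `κ (K_W + Δ) ≥ a`: there is `m ≥ 1` with `h⁰ (j m (K_W + Δ)) ≥ j ^ a` for all `j ≥ 1`. -/
def PKapGe (L : Type) [Field L] [Algebra ℂ L] (d : ℕ) (δ : Place ℂ L → ℝ) (a : ℕ) : Prop :=
  ∃ m : ℕ, 1 ≤ m ∧ ∀ j : ℕ, 1 ≤ j → HasIndep ℂ L d (j ^ a) (PairSec ℂ L d δ {1} (j * m) 0)

/-- `κ (K_W + Δ) = ν (K_W + Δ) ≥ 0`. -/
def PAbundant (L : Type) [Field L] [Algebra ℂ L] (d : ℕ) (δ : Place ℂ L → ℝ) : Prop :=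
  ∃ h, PKapGe L d δ h ∧ PNuLe L d δ h

/-- `0 ≤ Δ ≤` the branch divisor of `V ⇢ W` (along all prime divisors over `W`): `e δ ≤ e - 1` if `e`
is the ramification index of a prime divisor over `V` over the prime divisor with coefficient `δ`. -/
def LeBranch (K : Type) {L : Type} [Field K] [Field L] [Algebra ℂ K] [Algebra ℂ L] [Algebra L K]
    (d : ℕ) (δ : Place ℂ L → ℝ) : Prop :=
  ∀ P, Divisorial d P → 0 ≤ δ P ∧ ∀ (Q : Place ℂ K) (e : ℕ), LiesOn Q P e → e * δ P ≤ e - 1

/-- `N K_X - ∑ M_i H_i` is effective, where `H_i` is the linear system spanned by the functions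
`x i b` (with `x i 0 = 1`): there is an `N`-canonical form `η ≠ 0` such that all products
`∏ (x i (f i)) ^ M_i * η` are regular along all prime divisors (on all models). -/
def SysEff {E : Type} [Field E] [Algebra ℂ E] (d N : ℕ) {k : ℕ} {m : Fin k → ℕ}
    (x : ∀ i, Fin (m i + 1) → E) (M : Fin k → ℕ) : Prop :=
  ∃ η : (Fin d → Derivation ℂ E E) → E, IsPluri N η ∧ (∃ D, η D ≠ 0) ∧
    ∀ f, ∀ P : Place ℂ E, Divisorial d P → RegAt P fun D => mlt x M f * η D

/-- **Pairs on images of products.** `L ⊆ K` are the function fields of `W` and `V = X × Y`, and `E`,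
`F` those of `X`, `Y`; the field `Lv L x i` is the function field of the image `W_i` of `V` in
`W × ℙ^(m_0) × ... × ℙ^(m_(i-1))`, and the condition `hM` is `M_i > 2 N (deg (W_(i+1) → W_i) - 1)`. -/
theorem result {K L : Type} [Field K] [Field L] [Algebra ℂ K] [Algebra ℂ L] [Algebra L K]
    [IsScalarTower ℂ L K] [FiniteDimensional L K] [Algebra.EssFiniteType ℂ K]
    {E F : IntermediateField ℂ K} [Algebra.EssFiniteType ℂ E] [Algebra.EssFiniteType ℂ F]
    (hsup : E ⊔ F = ⊤) {d n : ℕ} (hE : Algebra.trdeg ℂ E = d) (hn : Algebra.trdeg ℂ F = n)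
    (hK : Algebra.trdeg ℂ K = (d + n : ℕ)) {k : ℕ} {m : Fin k → ℕ}
    (x : ∀ i, Fin (m i + 1) → E) (hx0 : ∀ i, x i 0 = 1)
    (hgen : Lv L (fun i b => (x i b : K)) k = ⊤) {N : ℕ} (hN : 1 ≤ N) (M : Fin k → ℕ)
    (hM : ∀ i : Fin k, 2 * (finrank L (Lv L (fun i b => (x i b : K)) (i + 1)) -
      finrank L (Lv L (fun i b => (x i b : K)) i)) * N <
        M i * finrank L (Lv L (fun i b => (x i b : K)) i))
    (heff : SysEff d N x M) {δ : Place ℂ L → ℝ} (hδ : LeBranch K (d + n) δ) :
    (PNuNeg L (d + n) δ ↔ NuNeg F n) ∧ (PKapGe L (d + n) δ 0 ↔ KapGe F n 0) ∧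
    (∀ h, NuLe F n h → PNuLe L (d + n) δ (d + h)) ∧
    (∀ a, PKapGe L (d + n) δ (d + a) → KapGe F n a) ∧
    ∀ (s : ℕ) (q : Fin s → (i : Fin k) × Fin (m i + 1)),
      (AlgebraicIndependent ℂ fun a => x (q a).1 (q a).2) →
      (∀ h, PNuLe L (d + n) δ (s + h) → NuLe F n h) ∧
      (∀ a, KapGe F n a → PKapGe L (d + n) δ (s + a)) ∧
      (s = d → (∀ h, PNuLe L (d + n) δ (d + h) ↔ NuLe F n h) ∧
        (∀ a, PKapGe L (d + n) δ (d + a) ↔ KapGe F n a) ∧
        (PAbundant L (d + n) δ ↔ Abundant F n)) := by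
  obtain ⟨η, hη, hη0, hreg⟩ := heff
  have hmain := fun (s : ℕ) (q : Fin s → (i : Fin k) × Fin (m i + 1))
      (hq : AlgebraicIndependent ℂ fun a => x (q a).1 (q a).2) =>
    Pool.Agent.Run7.h562.ND.main_pair hsup hE hn hK x hx0 hgen hN M hM hη hη0 hreg q hq
      (fun P hP => (hδ P hP).1) (fun P hP => (hδ P hP).2)
  obtain ⟨h1, h2, -, h4, -, h6⟩ := hmain 0 Fin.elim0
    ((algebraicIndependent_empty_type_iff).2 (algebraMap ℂ E).injective)
  refine ⟨h1, h2, h4, h6, fun s q hq => ?_⟩
  obtain ⟨-, -, h3, -, h5, -⟩ := hmain s q hq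
  refine ⟨h3, h5, ?_⟩
  rintro rfl
  refine ⟨fun h => ⟨h3 h, h4 h⟩, fun a => ⟨h6 a, h5 a⟩, ?_, ?_⟩
  · rintro ⟨h, ha, hb⟩
    have e1 : KapGe F n 0 := h2.1 (Pool.Agent.Run7.h562.ND.pair_kap_mono
      (Nat.zero_le _) ha)
    have e2 := Pool.Agent.Run7.h562.ND.pair_kap_le (h5 0 e1) hb
    rw [add_zero] at e2
    obtain ⟨a, rfl⟩ := Nat.exists_eq_add_of_le e2
    exact ⟨a, h6 a ha, h3 a hb⟩
  · rintro ⟨h, ha, hb⟩
    exact ⟨s + h, h5 h ha, h4 h hb⟩

end Pool.Agent.Results.MP_a27c81_ag.PairsOnImagesOfProducts
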